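import Pool.Agent.helper69.DH.SpecR

/-!
# d2:rDNA (MP_5823cb_al): densities of the auxiliary sets (helper31)
-/

set_option autoImplicit false

open Filter Topology MeasureTheory
open scoped commutatorElement

namespace Pool.Agent.helper90.DH

open Pool.Agent.helper64.D2

/-- counting: if all cells of `Q` are near the family then the cardinality is bounded by the sum of the numbers of levels. -/
lemma rDNA_card (A : ℕ → Finset ℤ) (r : ℝ) (s : ℕ) (Q : Finset ℤ) (h : ∀ m ∈ Q, rin A r s (rlp s m)) :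
    (Q.card : ℝ) ≤ ∑ m ∈ Q, ((rAc A r s (rlp s m)).card : ℝ) := by
  have h1 : ∀ m ∈ Q, (1 : ℝ) ≤ ((rAc A r s (rlp s m)).card : ℝ) := by
    intro m hm
    obtain ⟨t, ht, n, hn, hd⟩ := h m hm
    have : 0 < (rAc A r s (rlp s m)).card := by
      apply Finset.card_pos.2
      refine ⟨t, ?_⟩
      unfold rAc
      rw [Finset.mem_filter, Finset.mem_range]
      exact ⟨by omega, n, hn, hd⟩
    exact_mod_cast this
  calc (Q.card : ℝ) = ∑ m ∈ Q, (1 : ℝ) := by simp
    _ ≤ _ := Finset.sum_le_sum h1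

/-- the first two estimates. -/
lemma rDNA_one (hCNT : rCNT_stmt) (P : RQ) (S : ℕ) (hR : RHY P S) (s : ℕ) (A : ℕ → Finset ℤ) (hs : P.S1 ≤ s) (hF : rFam A P.S1 s)
    (r D B : ℝ) (hr0 : 0 ≤ r) (hr1 : r + 1 ≤ 2 ^ 34) (hB : (2 * r + 1) * (3 * D) ≤ B)
    (hD : ∀ κ : ℤ, (rcw P.ell s κ (rRZ A s) : ℝ) ≤ D * (P.d1 * 2 ^ (s - P.ell))) (κ : ℤ) (Q : Finset ℤ)
    (hQ : ∀ m ∈ Q, m / 2 ^ (s - P.ell) = κ) (h : ∀ m ∈ Q, rin A r s (rlp s m)) :
    (Q.card : ℝ) ≤ B * (P.d1 * 2 ^ (s - P.ell)) := by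
  obtain ⟨⟨hq, hl1, hl2, hs0, hs1, hl3, hd, h8⟩, -⟩ := hR
  have hX : 0 < P.d1 * 2 ^ (s - P.ell) := by positivity
  have hr2 : r + 1 ≤ 2 ^ (P.S1 - P.ell) := by
    refine le_trans hr1 ?_
    exact pow_le_pow_right₀ (by norm_num) (by omega)
  have h1 := hCNT P.ell P.S1 s A r κ Q (by omega) hs hr0 hr2 hF hQ
  have h2 := rDNA_card A r s Q h
  have h3 : ((rcw P.ell s (κ - 1) (rRZ A s) : ℝ) + rcw P.ell s κ (rRZ A s) + rcw P.ell s (κ + 1) (rRZ A s)) ≤
      3 * D * (P.d1 * 2 ^ (s - P.ell)) := by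
    have a1 := hD (κ - 1)
    have a2 := hD κ
    have a3 := hD (κ + 1)
    linarith
  calc (Q.card : ℝ) ≤ _ := h2
    _ ≤ _ := h1
    _ ≤ (2 * r + 1) * (3 * D * (P.d1 * 2 ^ (s - P.ell))) := mul_le_mul_of_nonneg_left h3 (by linarith)
    _ = (2 * r + 1) * (3 * D) * (P.d1 * 2 ^ (s - P.ell)) := by ring
    _ ≤ B * (P.d1 * 2 ^ (s - P.ell)) := mul_le_mul_of_nonneg_right hB hX.le

theorem rDNA (hBAS : rBAS_stmt) (hGEO : rGEO_stmt) (hCNT : rCNT_stmt) (hMXT : rMXT_stmt) (hMXS : rMXS_stmt) : rDNA_stmt := by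
  classical
  intro P S hR s H K hs1 hs2 hI κ Q hQ
  obtain ⟨hFH, hFK, hTH, hTK, hDs⟩ := hI
  have hR' := hR
  obtain ⟨⟨hq, hl1, hl2, hs0, hs01, hl3, hd, h8⟩, -⟩ := hR'
  have hX : 0 < P.d1 * 2 ^ (s - P.ell) := by positivity
  have hq0 : (0 : ℝ) < P.q := by exact_mod_cast hq
  -- (1), (2) in all windows
  have E1 : ∀ (κ' : ℤ) (Q' : Finset ℤ), (∀ m ∈ Q', m / 2 ^ (s - P.ell) = κ') → (∀ m ∈ Q', rin H (rrh 1) s (rlp s m)) →
      (Q'.card : ℝ) ≤ 2 ^ 36 * (P.d1 * 2 ^ (s - P.ell)) := by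
    intro κ' Q' h1 h2
    refine rDNA_one hCNT P S hR s H hs1 hFH (rrh 1) 2 (2 ^ 36) ?_ ?_ ?_ ?_ κ' Q' h1 h2
    · unfold rrh; positivity
    · unfold rrh; norm_num
    · unfold rrh; norm_num
    · intro κ''
      have := (hDs κ'').1
      linarith
  have E2 : ∀ (κ' : ℤ) (Q' : Finset ℤ), (∀ m ∈ Q', m / 2 ^ (s - P.ell) = κ') → (∀ m ∈ Q', rin K (rrk 1) s (rlp s m)) →
      (Q'.card : ℝ) ≤ 2 ^ 7 * (P.d1 * 2 ^ (s - P.ell)) := by
    intro κ' Q' h1 h2
    refine rDNA_one hCNT P S hR s K hs1 hFK (rrk 1) 1 (2 ^ 7) ?_ ?_ ?_ ?_ κ' Q' h1 h2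
    · unfold rrk; positivity
    · unfold rrk; norm_num
    · unfold rrk; norm_num
    · intro κ''
      have := (hDs κ'').2
      linarith
  -- cells near the critical cells are in the range
  have hnear : ∀ n : ℤ, rin K (rrk 1) s (rlp s n) → |rlp s n - 1 / 2| ≤ 24 / 100 ∧ n ∈ rTg s := by
    intro n hn
    obtain ⟨t, ht, n', hn', hd'⟩ := hn
    have ht1 : P.S1 ≤ t := by
      by_contra hc
      rw [hFK.1 t (by omega)] at hn'
      simp at hn'
    obtain ⟨-, -, -, -, b5, -, -, -, b9, b10⟩ := hBAS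
    obtain ⟨-, c1, c2⟩ := b9 t n' (by omega) (hTK t ht n' hn').1
    have h2t : (0 : ℝ) < 2 ^ t := by positivity
    have hrk : rrk 1 = 20 := by unfold rrk; norm_num
    rw [hrk] at hd'
    have h3 : |rlp s n - rlp t n'| ≤ 20 / 2 ^ t := by
      have e : 2 ^ t * rlp s n - (n' : ℝ) = 2 ^ t * (rlp s n - rlp t n') := by
        unfold rlp
        field_simp
      rw [e, abs_mul, abs_of_pos h2t] at hd'
      rw [le_div_iff₀ h2t]
      linarith
    have h4 : (20 : ℝ) / 2 ^ t ≤ 1 / 100 := by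
      rw [div_le_div_iff₀ h2t (by norm_num)]
      have : (2 : ℝ) ^ 11 ≤ 2 ^ t := pow_le_pow_right₀ (by norm_num) (by omega)
      linarith
    have h5 : |rlp s n - rlp t n'| ≤ 1 / 100 := le_trans h3 h4
    rw [abs_le] at h5
    refine ⟨?_, ?_⟩
    · rw [abs_le]
      constructor <;> linarith [h5.1, h5.2]
    · have := b10 s (rlp s n) (by linarith [h5.1]) (by linarith [h5.2])
      rwa [(b5 s n).1] at this
  refine ⟨?_, ?_, ?_, ?_⟩
  · intro h
    have := E1 κ Q hQ h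
    linarith
  · intro h
    have := E2 κ Q hQ h
    linarith
  · intro h
    set A1 : Finset ℤ := (rTg s).filter (fun n => rin K (rrk 1) s (rlp s n)) with hA1
    have hcw : ∀ κ' : ℤ, (rcw P.ell s κ' A1 : ℝ) ≤ 2 ^ 7 * (P.d1 * 2 ^ (s - P.ell)) := by
      intro κ'
      unfold rcw
      refine E2 κ' _ (fun m hm => (Finset.mem_filter.1 hm).2) ?_
      intro m hm
      exact (Finset.mem_filter.1 (Finset.mem_filter.1 hm).1).2
    have key := hMXT P S hR s A1 Q κ (1 / 3000) hs1 hs2 (by norm_num)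
      (fun n hn => (hnear n (Finset.mem_filter.1 hn).2).1)
      (fun κ' => by
        have := hcw κ'
        nlinarith [hX])
      hQ (by
        intro m hm
        have h1 := h m hm
        have h2 : rdg P K 1 s m ≤ ((Finset.range P.q).filter (fun i => rcc P s i m ∈ A1)).card := by
          unfold rdg
          apply Finset.card_le_card
          intro i hi
          rw [Finset.mem_filter] at hi ⊢
          refine ⟨hi.1, ?_⟩
          rw [hA1, Finset.mem_filter]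
          exact ⟨(hnear _ hi.2).2, hi.2⟩
        have h3 : (P.q : ℝ) ≤ 3000 * (((Finset.range P.q).filter (fun i => rcc P s i m ∈ A1)).card : ℝ) := by
          have : P.q ≤ 3000 * ((Finset.range P.q).filter (fun i => rcc P s i m ∈ A1)).card := le_trans h1 (Nat.mul_le_mul_left _ h2)
          exact_mod_cast this
        linarith)
    have a1 := hcw (κ - 1)
    have a2 := hcw κ
    have a3 := hcw (κ + 1)
    refine le_trans key ?_
    rw [div_le_iff₀ (by norm_num)]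
    have : (1 : ℝ) * (3 * (2 ^ 7 * (P.d1 * 2 ^ (s - P.ell)))) ≤ P.d1 * 2 ^ (s - P.ell) * (2 ^ 104 * (1 / 3000) ^ 2) := by
      have e : (3 * 2 ^ 7 : ℝ) ≤ 2 ^ 104 * (1 / 3000) ^ 2 := by norm_num
      nlinarith [mul_le_mul_of_nonneg_left e hX.le]
    linarith
  · intro h
    set Q' : Finset ℤ := (rTg s).filter (fun m => rin H (rrh 1) s (rlp s m)) with hQ'
    have hcw : ∀ κ' : ℤ, (rcw P.ell s κ' Q' : ℝ) ≤ 2 ^ 36 * (P.d1 * 2 ^ (s - P.ell)) := by
      intro κ'
      unfold rcw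
      refine E1 κ' _ (fun m hm => (Finset.mem_filter.1 hm).2) ?_
      intro m hm
      exact (Finset.mem_filter.1 (Finset.mem_filter.1 hm).1).2
    have key := hMXS P S hR s Q Q' κ (1 / 2 ^ 32) (3 * 2 ^ 36 * (P.d1 * 2 ^ (s - P.ell))) hs1 hs2 (by norm_num)
      (fun n hn => (h n hn).1) hQ (by
        intro n hn
        obtain ⟨h1, h2⟩ := h n hn
        have h3 : rhp P H 1 s n ≤ ((Finset.range P.q).filter (fun k => rbb P s k n ∈ Q')).card := by
          unfold rhp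
          apply Finset.card_le_card
          intro i hi
          rw [Finset.mem_filter] at hi ⊢
          refine ⟨hi.1, ?_⟩
          rw [hQ', Finset.mem_filter]
          obtain ⟨-, hG⟩ := hGEO P S hR
          obtain ⟨-, -, -, hG5⟩ := hG s i (by omega) hs2 (Finset.mem_range.1 hi.1)
          exact ⟨(hG5 n h1).2.1, hi.2⟩
        have h4 : (P.q : ℝ) ≤ 2 ^ 32 * (((Finset.range P.q).filter (fun k => rbb P s k n ∈ Q')).card : ℝ) := by
          have : P.q ≤ 2 ^ 32 * ((Finset.range P.q).filter (fun k => rbb P s k n ∈ Q')).card := le_trans h2 (Nat.mul_le_mul_left _ h3)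
          exact_mod_cast this
        have h5 : (1 / 2 ^ 32 : ℝ) * P.q ≤ 1 / 2 ^ 32 * (2 ^ 32 * (((Finset.range P.q).filter (fun k => rbb P s k n ∈ Q')).card : ℝ)) :=
          mul_le_mul_of_nonneg_left h4 (by positivity)
        have h6 : (1 / 2 ^ 32 : ℝ) * (2 ^ 32 * (((Finset.range P.q).filter (fun k => rbb P s k n ∈ Q')).card : ℝ)) =
            (((Finset.range P.q).filter (fun k => rbb P s k n ∈ Q')).card : ℝ) := by
          rw [← mul_assoc]
          norm_num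
        rw [h6] at h5
        exact h5)
      (by
        have a1 := hcw (κ - 1)
        have a2 := hcw κ
        have a3 := hcw (κ + 1)
        linarith)
      (by
        have e : 4 * (3 * 2 ^ 36 * (P.d1 * 2 ^ (s - P.ell))) / (2 ^ 104 * (1 / 2 ^ 32) ^ 2) = 3 / 4 * (P.d1 * 2 ^ (s - P.ell)) := by
          ring
        rw [e]
        nlinarith [hX])
    have e : 4 * (3 * 2 ^ 36 * (P.d1 * 2 ^ (s - P.ell))) / (2 ^ 104 * (1 / 2 ^ 32) ^ 2) = 3 / 4 * (P.d1 * 2 ^ (s - P.ell)) := by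
      ring
    rw [e] at key
    linarith

end Pool.Agent.helper90.DH
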