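import Pool.Agent.helper69.DH.SpecR2

/-!
# d2:rLD1 (MP_5823cb_al): the critical load (helper31)
-/

set_option autoImplicit false

open Filter Topology MeasureTheory
open scoped commutatorElement

namespace Pool.Agent.helper90.DH

open Pool.Agent.helper64.D2

lemma rLD1_tel (f : ℕ → ℝ) (a b : ℕ) (h : a ≤ b) : ∑ s ∈ Finset.Ico a b, (f (s + 1) - f s) = f b - f a := by
  induction b, h using Nat.le_induction with
  | base => simp
  | succ n hn ih => rw [Finset.sum_Ico_succ_top hn, ih]; ring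

/-- one label. -/
lemma rLD1_one (hWTC : rWTC_stmt) (P : RQ) (S : ℕ) (hR : RHY P S) (D : RD) (hO : ROK P D (S + 1)) (x : ℝ) (i : ℕ)
    (F : ℕ → ℝ → ℝ) (τ : ℕ) (hτS : τ ≤ S) (hτK : ci τ x ∈ D.K τ) (hmin : ∀ t < τ, ci t x ∉ D.K t) :
    ∃ w : ℝ, (i ∈ D.G τ (ci τ x) → |w| ≤ 2 / P.q) ∧ (i ∉ D.G τ (ci τ x) → w = 0) ∧
      ∀ T : ℕ → Prop, (∀ s, s ≤ S → (T s ↔ τ ≤ s)) → ∀ d : ∀ s, Decidable (T s),
      ∑ s ∈ Finset.Ico P.s0 (S + 1), (@ite ℝ (T s) (d s) (rwt P D s i (ci s x) * (F (s + 1) x - F s x)) 0) = w * (F (S + 1) x - F τ x) := by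
  classical
  obtain ⟨⟨hq, hl1, hl2, hs0, hs01, hl3, hd, h8⟩, -⟩ := id hR
  have hq0 : (0 : ℝ) < P.q := by exact_mod_cast hq
  have hS1 : P.S1 ≤ τ := by
    by_contra hc
    have h1 := ((hO τ (by omega)).1 (by omega)).2
    rw [h1] at hτK
    simp at hτK
  obtain ⟨-, -, hGK, -⟩ := (hO τ (by omega)).2 hS1
  obtain ⟨-, hcard, -⟩ := hGK (ci τ x) hτK
  set w : ℝ := if i ∈ D.G τ (ci τ x) then 1 / ((D.G τ (ci τ x)).card : ℝ) else 0 with hw
  refine ⟨w, ?_, ?_, ?_⟩
  · intro hi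
    rw [hw, if_pos hi]
    have h1 : (P.q : ℝ) ≤ 2 * ((D.G τ (ci τ x)).card : ℝ) := by exact_mod_cast hcard
    have h2 : (0 : ℝ) < ((D.G τ (ci τ x)).card : ℝ) := by linarith
    rw [abs_of_nonneg (by positivity), div_le_div_iff₀ h2 hq0]
    linarith
  · intro hi
    rw [hw, if_neg hi]
  · intro T hT d
    rw [← Finset.sum_Ico_consecutive _ (le_trans hs01 hS1) (show τ ≤ S + 1 by omega)]
    have e1 : ∑ s ∈ Finset.Ico P.s0 τ, (@ite ℝ (T s) (d s) (rwt P D s i (ci s x) * (F (s + 1) x - F s x)) 0) = 0 := by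
      apply Finset.sum_eq_zero
      intro s hs
      rw [Finset.mem_Ico] at hs
      rw [if_neg]
      rw [hT s (by omega)]
      omega
    have e2 : ∑ s ∈ Finset.Ico τ (S + 1), (@ite ℝ (T s) (d s) (rwt P D s i (ci s x) * (F (s + 1) x - F s x)) 0) =
        ∑ s ∈ Finset.Ico τ (S + 1), w * (F (s + 1) x - F s x) := by
      apply Finset.sum_congr rfl
      intro s hs
      rw [Finset.mem_Ico] at hs
      rw [if_pos ((hT s (by omega)).2 (by omega))]
      congr 1
      obtain ⟨-, h2⟩ := hWTC P D x s i (by omega)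
      obtain ⟨h3, h4⟩ := h2 τ (by omega) hτK hmin
      by_cases hi : i ∈ D.G τ (ci τ x)
      · rw [h3 hi, hw, if_pos hi]
      · rw [h4 hi, hw, if_neg hi]
    rw [e1, e2, zero_add, ← Finset.mul_sum, rLD1_tel (fun s => F s x) τ (S + 1) (by omega)]

theorem rLD1 (hUSE : rUSE_stmt) (hWTC : rWTC_stmt) : rLD1_stmt := by
  classical
  intro P S hR D hO z X hX F hF
  obtain ⟨⟨hq, hl1, hl2, hs0, hs01, hl3, hd, h8⟩, -⟩ := id hR
  have hq0 : (0 : ℝ) < P.q := by exact_mod_cast hq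
  set U : Finset ℕ := (Finset.range P.q).filter (fun i => ∃ t, t ≤ S ∧ ci t (X i) ∈ D.K t ∧ i ∈ D.G t (ci t (X i))) with hUd
  have hU : 1000 * U.card ≤ P.q := by
    have h1 := hUSE P S hR D hO z X hX
    rw [hUd]
    convert h1 using 3
  have key : ∀ i ∈ Finset.range P.q, |∑ s ∈ Finset.Ico P.s0 (S + 1), (if rcr D s (X i) then rwt P D s i (ci s (X i)) * (F (s + 1) (X i) - F s (X i)) else 0)| ≤
      if i ∈ U then 16 / (P.q : ℝ) else 0 := by
    intro i hi
    by_cases hc : ∃ t, t ≤ S ∧ ci t (X i) ∈ D.K t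
    · obtain ⟨hτS, hτK⟩ := Nat.find_spec hc
      have hmin' : ∀ t < Nat.find hc, ci t (X i) ∉ D.K t := by
        intro t ht hK
        exact Nat.find_min hc ht ⟨by omega, hK⟩
      set τ := Nat.find hc with hτ
      obtain ⟨w, hw1, hw2, hw3⟩ := rLD1_one hWTC P S hR D hO (X i) i F τ hτS hτK hmin'
      have hT : ∀ s, s ≤ S → (rcr D s (X i) ↔ τ ≤ s) := by
        intro s hs
        constructor
        · rintro ⟨t, ht, hK⟩
          by_contra hlt
          exact hmin' t (by omega) hK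
        · intro h
          exact ⟨τ, h, hτK⟩
      rw [hw3 (fun s => rcr D s (X i)) hT]
      by_cases hG : i ∈ D.G τ (ci τ (X i))
      · have hiU : i ∈ U := by
          rw [hUd, Finset.mem_filter]
          exact ⟨hi, τ, hτS, hτK, hG⟩
        rw [if_pos hiU, abs_mul]
        have hS1 : P.S1 ≤ τ := by
          by_contra hcc
          have h1 := ((hO τ (by omega)).1 (by omega)).2
          rw [h1] at hτK
          simp at hτK
        have hB : |F (S + 1) (X i) - F τ (X i)| ≤ 8 := hF.1 (S + 1) τ (by omega) (le_refl _) (by omega) (by omega) (X i)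
        calc |w| * |F (S + 1) (X i) - F τ (X i)| ≤ (2 / P.q) * 8 :=
              mul_le_mul (hw1 hG) hB (abs_nonneg _) (by positivity)
          _ = 16 / (P.q : ℝ) := by ring
      · rw [hw2 hG, zero_mul, abs_zero]
        split_ifs
        · positivity
        · exact le_refl _
    · have h0 : ∑ s ∈ Finset.Ico P.s0 (S + 1), (if rcr D s (X i) then rwt P D s i (ci s (X i)) * (F (s + 1) (X i) - F s (X i)) else 0) = 0 := by
        apply Finset.sum_eq_zero
        intro s hs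
        rw [Finset.mem_Ico] at hs
        rw [if_neg]
        rintro ⟨t, ht, hK⟩
        exact hc ⟨t, by omega, hK⟩
      rw [h0, abs_zero]
      split_ifs
      · positivity
      · exact le_refl _
  have hsum : ∑ i ∈ Finset.range P.q, (if i ∈ U then 16 / (P.q : ℝ) else 0) ≤ 16 / 1000 := by
    rw [Finset.sum_ite_mem, Finset.inter_eq_right.2 (Finset.filter_subset _ _), Finset.sum_const, nsmul_eq_mul]
    have h1 : (1000 : ℝ) * (U.card : ℝ) ≤ P.q := by exact_mod_cast hU
    rw [mul_div_assoc', div_le_div_iff₀ hq0 (by norm_num)]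
    linarith
  have hfin : |∑ i ∈ Finset.range P.q, ∑ s ∈ Finset.Ico P.s0 (S + 1), (if rcr D s (X i) then rwt P D s i (ci s (X i)) * (F (s + 1) (X i) - F s (X i)) else 0)| ≤ 16 / 1000 :=
    le_trans (Finset.abs_sum_le_sum_abs _ _) (le_trans (Finset.sum_le_sum key) hsum)
  convert hfin using 6

end Pool.Agent.helper90.DH
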